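import Pool.Agent.TH212.DV.C6

set_option autoImplicit false

/-! The divisor functions as sums over small divisors: the exact identity and the exponential sums. -/

namespace Pool.Agent.TH212.PS
open Finset
open Pool.Agent.H807R2.Dav
open Pool.Agent.TH212.DV
open ArithmeticFunction (zeta)

/-- the weights -/
def EE (Y : ℕ) : ℕ → AF
  | 0 => 0
  | r + 1 => (zeta : AF) ^ r + lo (Y + 1) * EE Y r

lemma EE_succ (Y r : ℕ) : EE Y (r + 1) = (zeta : AF) ^ r + lo (Y + 1) * EE Y r := rfl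

lemma zeta_split (y : ℕ) : (zeta : AF) = hi y + lo y := by
  ext n
  rw [ArithmeticFunction.add_apply]
  exact zeta_eq y n

theorem split_pow (Y r : ℕ) : (zeta : AF) ^ r = lo (Y + 1) ^ r + EE Y r * hi (Y + 1) := by
  induction r with
  | zero =>
    rw [pow_zero, pow_zero]
    unfold EE
    rw [zero_mul, add_zero]
  | succ r ih =>
    rw [EE_succ]
    calc (zeta : AF) ^ (r + 1) = (zeta : AF) ^ r * zeta := pow_succ _ _
      _ = (zeta : AF) ^ r * (hi (Y + 1) + lo (Y + 1)) := by rw [← zeta_split]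
      _ = (zeta : AF) ^ r * hi (Y + 1) + lo (Y + 1) * (zeta : AF) ^ r := by ring
      _ = (zeta : AF) ^ r * hi (Y + 1) + lo (Y + 1) * (lo (Y + 1) ^ r + EE Y r * hi (Y + 1)) := by rw [← ih]
      _ = _ := by ring

lemma lo_pow_zero (Y r : ℕ) : ∀ n : ℕ, Y ^ r < n → (lo (Y + 1) ^ r) n = 0 := by
  induction r with
  | zero =>
    intro n hn
    rw [pow_zero] at hn
    rw [pow_zero, ArithmeticFunction.one_apply, if_neg (by omega)]
  | succ r ih =>
    intro n hn
    rw [pow_succ, ArithmeticFunction.mul_apply]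
    apply sum_eq_zero
    intro p hp
    rw [Nat.mem_divisorsAntidiagonal] at hp
    by_cases h : p.2 ≤ Y
    · have h1 : Y ^ r < p.1 := by
        by_contra hc
        push Not at hc
        have : p.1 * p.2 ≤ Y ^ r * Y := Nat.mul_le_mul hc h
        rw [hp.1, ← pow_succ] at this
        omega
      rw [ih _ h1, zero_mul]
    · rw [lo_apply]
      split_ifs <;> omega

/-- the exact identity -/
theorem exact_id (Y r n : ℕ) (hn : Y ^ r < n) : dk r n = ∑ a ∈ n.divisors.filter (fun a => a * Y < n), EE Y r a := by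
  have hn0 : 0 < n := by omega
  unfold dk
  rw [split_pow Y r, ArithmeticFunction.add_apply, lo_pow_zero Y r n hn, zero_add, ArithmeticFunction.mul_apply,
    Nat.sum_divisorsAntidiagonal (f := fun a b => EE Y r a * hi (Y + 1) b), sum_filter]
  apply sum_congr rfl
  intro a ha
  rw [Nat.mem_divisors] at ha
  obtain ⟨k, hk⟩ := ha.1
  have ha0 : 0 < a := Nat.pos_of_dvd_of_pos ha.1 hn0
  have hk0 : 0 < k := Nat.pos_of_ne_zero (by rintro rfl; omega)
  have hd : n / a = k := by rw [hk, Nat.mul_div_cancel_left _ ha0]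
  rw [hd, hi_apply, if_neg (by omega : ¬ k = 0)]
  by_cases h : k < Y + 1
  · rw [if_pos h, mul_zero, if_neg]
    rw [hk]
    have : a * k ≤ a * Y := Nat.mul_le_mul_left _ (by omega)
    omega
  · rw [if_neg h, mul_one, if_pos]
    rw [hk]
    exact Nat.mul_lt_mul_of_pos_left (by omega) ha0

lemma EE_le (Y t : ℕ) : ∀ a, EE Y (t + 1) a ≤ (t + 1) * dk t a := by
  induction t with
  | zero =>
    intro a
    rw [EE_succ, pow_zero]
    unfold EE
    rw [mul_zero, add_zero, zero_add, one_mul]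
    unfold dk
    rw [pow_zero]
  | succ t ih =>
    intro a
    rw [EE_succ, ArithmeticFunction.add_apply]
    have h1 : (lo (Y + 1) * EE Y (t + 1)) a ≤ (t + 1) * dk (t + 1) a := by
      rw [dk_succ, ArithmeticFunction.mul_apply, ArithmeticFunction.mul_apply, mul_sum]
      apply sum_le_sum
      intro p _
      calc lo (Y + 1) p.1 * EE Y (t + 1) p.2 ≤ zeta p.1 * ((t + 1) * dk t p.2) := Nat.mul_le_mul (lo_le_zeta _ _) (ih _)
        _ = _ := by ring
    have h2 : ((zeta : AF) ^ (t + 1)) a = dk (t + 1) a := rfl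
    rw [h2]
    calc dk (t + 1) a + (lo (Y + 1) * EE Y (t + 1)) a ≤ dk (t + 1) a + (t + 1) * dk (t + 1) a := Nat.add_le_add_left h1 _
      _ = _ := by ring

/-- the sum over the divisors -/
noncomputable def FY (W : ℕ → ℝ) (Y D n : ℕ) : ℝ := ∑ a ∈ (Icc 1 D).filter (fun a => a ∣ n ∧ a * Y < n), W a

/-- the smooth weights -/
noncomputable def ww (W : ℕ → ℝ) (Y D q n : ℕ) : ℝ := ∑ a ∈ (Icc 1 D).filter (fun a => q ∣ a ∧ a * Y < n), W a / a

/-- the model -/
noncomputable def MY (W : ℕ → ℝ) (Y D z n : ℕ) : ℝ := ∑ q ∈ Icc 1 z, ww W Y D q n * (cz q (n : ℤ) : ℝ)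

lemma ww_nonneg (W : ℕ → ℝ) (hW : ∀ a, 0 ≤ W a) (Y D q n : ℕ) : 0 ≤ ww W Y D q n :=
  sum_nonneg fun a _ => div_nonneg (hW a) (Nat.cast_nonneg _)

lemma ww_le (W : ℕ → ℝ) (hW : ∀ a, 0 ≤ W a) (Y D q n : ℕ) : ww W Y D q n ≤ RR W D q := by
  unfold ww RR
  apply sum_le_sum_of_subset_of_nonneg
  · intro a ha
    rw [mem_filter] at ha ⊢
    exact ⟨ha.1, ha.2.1⟩
  · intro a _ _
    exact div_nonneg (hW a) (Nat.cast_nonneg _)

lemma ww_mono (W : ℕ → ℝ) (hW : ∀ a, 0 ≤ W a) (Y D q m n : ℕ) (h : m ≤ n) : ww W Y D q m ≤ ww W Y D q n := by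
  unfold ww
  apply sum_le_sum_of_subset_of_nonneg
  · intro a ha
    rw [mem_filter] at ha ⊢
    exact ⟨ha.1, ha.2.1, by omega⟩
  · intro a _ _
    exact div_nonneg (hW a) (Nat.cast_nonneg _)

lemma dk_FY (Y r D n : ℕ) (hn : Y ^ r < n) (hD : ∀ a, a * Y < n → a ∣ n → a ≤ D) :
    (dk r n : ℝ) = FY (fun a => (EE Y r a : ℝ)) Y D n := by
  rw [exact_id Y r n hn]
  unfold FY
  push_cast
  apply sum_congr _ (fun _ _ => rfl)
  ext a
  rw [mem_filter, mem_filter, mem_Icc, Nat.mem_divisors]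
  constructor
  · rintro ⟨⟨h1, h2⟩, h3⟩
    exact ⟨⟨Nat.pos_of_dvd_of_pos h1 (by omega), hD a h3 h1⟩, h1, h3⟩
  · rintro ⟨_, h1, h3⟩
    exact ⟨⟨h1, by omega⟩, h3⟩

lemma FY_expand (W : ℕ → ℝ) (Y D n : ℕ) : FY W Y D n = ∑ q ∈ Icc 1 D, ww W Y D q n * (cz q (n : ℤ) : ℝ) := by
  have h0 : FY W Y D n = FF (fun a => if a * Y < n then W a else 0) D n := by
    unfold FY FF
    rw [sum_filter, sum_filter]
    apply sum_congr rfl
    intro a _
    by_cases h1 : a ∣ n
    · by_cases h2 : a * Y < n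
      · rw [if_pos ⟨h1, h2⟩, if_pos h1, if_pos h2]
      · rw [if_neg (fun h => h2 h.2), if_pos h1, if_neg h2]
    · rw [if_neg (fun h => h1 h.1), if_neg h1]
  rw [h0, FF_expand]
  apply sum_congr rfl
  intro q _
  congr 1
  unfold RR ww
  rw [sum_filter, sum_filter]
  apply sum_congr rfl
  intro a _
  show (if q ∣ a then (if a * Y < n then W a else 0) / (a : ℝ) else 0) = _
  by_cases h1 : q ∣ a
  · by_cases h2 : a * Y < n
    · rw [if_pos h1, if_pos h2, if_pos ⟨h1, h2⟩]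
    · rw [if_pos h1, if_neg h2, if_neg (fun h => h2 h.2), zero_div]
  · rw [if_neg h1, if_neg (fun h => h1 h.1)]

lemma diff_Y (W : ℕ → ℝ) (Y D z n : ℕ) (hz : z ≤ D) : FY W Y D n - MY W Y D z n = ∑ q ∈ Ioc z D, ww W Y D q n * (cz q (n : ℤ) : ℝ) := by
  rw [FY_expand]
  unfold MY
  have h1 : Icc 1 D = Icc 1 z ∪ Ioc z D := by
    ext q
    rw [mem_union, mem_Icc, mem_Icc, mem_Ioc]
    omega
  rw [h1, sum_union]
  · ring
  · rw [disjoint_left]
    intro q h2 h3
    rw [mem_Icc] at h2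
    rw [mem_Ioc] at h3
    omega

/-- the exponential sums -/
theorem sup_Y (W : ℕ → ℝ) (hW : ∀ a, 0 ≤ W a) (Y D z H : ℕ) (hz : z ≤ D) (α : ℝ) :
    ‖∑ n ∈ Icc 1 H, ((FY W Y D n - MY W Y D z n : ℝ) : ℂ) * ee ((n : ℝ) * α)‖ ≤
      ∑ q ∈ Ioc z D, RR W D q * ∑ b ∈ Rd q, KK H (α + (b : ℝ) / q) := by
  have e0 : ∀ n ∈ Icc 1 H, ((FY W Y D n - MY W Y D z n : ℝ) : ℂ) * ee ((n : ℝ) * α) =
      ∑ q ∈ Ioc z D, ∑ a ∈ (Icc 1 D).filter (fun a => q ∣ a), ((W a / a : ℝ) : ℂ) * ∑ b ∈ Rd q,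
        if a * Y < n then ee ((n : ℝ) * (α + (b : ℝ) / q)) else 0 := by
    intro n _
    rw [diff_Y W Y D z n hz]
    push_cast
    rw [sum_mul]
    apply sum_congr rfl
    intro q hq
    rw [mem_Ioc] at hq
    have e1 := cr_eq q n (by omega)
    have e2 : ((cz q (n : ℤ) : ℤ) : ℂ) = ∑ b ∈ Rd q, ee (((n : ℤ) : ℝ) * ((b : ℝ) / q)) := by rw [← e1]; rfl
    have e3 : ((cz q (n : ℤ) : ℤ) : ℂ) * ee ((n : ℝ) * α) = ∑ b ∈ Rd q, ee ((n : ℝ) * (α + (b : ℝ) / q)) := by
      rw [e2, sum_mul]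
      apply sum_congr rfl
      intro b _
      rw [← ee_add]
      congr 1
      push_cast
      ring
    rw [mul_assoc, e3]
    unfold ww
    push_cast
    rw [sum_mul, ← filter_filter, sum_filter]
    apply sum_congr rfl
    intro a _
    split_ifs with h
    · rfl
    · simp
  rw [sum_congr rfl e0, sum_comm]
  refine (norm_sum_le _ _).trans (sum_le_sum fun q _ => ?_)
  rw [sum_comm]
  unfold RR
  rw [sum_mul]
  refine (norm_sum_le _ _).trans (sum_le_sum fun a _ => ?_)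
  rw [← mul_sum, norm_mul, Complex.norm_real, Real.norm_of_nonneg (div_nonneg (hW a) (Nat.cast_nonneg _))]
  apply mul_le_mul_of_nonneg_left _ (div_nonneg (hW a) (Nat.cast_nonneg _))
  rw [sum_comm]
  refine (norm_sum_le _ _).trans (sum_le_sum fun b _ => ?_)
  rw [← sum_filter]
  have e1 : (Icc 1 H).filter (fun n => a * Y < n) = Ico (a * Y + 1) (H + 1) := by
    ext n
    rw [mem_filter, mem_Icc, mem_Ico]
    omega
  rw [e1]
  rcases Nat.lt_or_ge H (a * Y) with h | h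
  · rw [Ico_eq_empty (by omega), sum_empty, norm_zero]
    exact KK_nonneg (Nat.cast_nonneg _) _
  · exact geo_bound (a * Y + 1) (H + 1) (by omega) (by push_cast; have : (0 : ℝ) ≤ a * Y := by positivity
                                                       linarith) _

end Pool.Agent.TH212.PS
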