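import Mathlib

set_option autoImplicit false

/-! Sums of powers of logarithms. -/

namespace Pool.Agent.TH212.PS
open Finset Polynomial

/-- polynomials with `L + L' = X ^ k` -/
noncomputable def Lk : ℕ → ℝ[X]
  | 0 => 1
  | k + 1 => X ^ (k + 1) - C ((k : ℝ) + 1) * Lk k

lemma Lk_zero : Lk 0 = 1 := rfl
lemma Lk_succ (k : ℕ) : Lk (k + 1) = X ^ (k + 1) - C ((k : ℝ) + 1) * Lk k := rfl

lemma Lk_deg (k : ℕ) : (Lk k).natDegree ≤ k := by
  induction k with
  | zero => rw [Lk_zero]; simp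
  | succ k ih =>
    rw [Lk_succ]
    refine (natDegree_sub_le _ _).trans (max_le ?_ ?_)
    · rw [natDegree_X_pow]
    · exact (natDegree_C_mul_le _ _).trans (by omega)

lemma Lk_coeff (k : ℕ) : (Lk k).coeff k = 1 := by
  cases k with
  | zero => rw [Lk_zero]; simp
  | succ k =>
    rw [Lk_succ, coeff_sub, coeff_X_pow, if_pos rfl, coeff_C_mul, coeff_eq_zero_of_natDegree_lt (lt_of_le_of_lt (Lk_deg k) (Nat.lt_succ_self k))]
    ring

lemma Lk_eq (k : ℕ) : Lk k + derivative (Lk k) = X ^ k := by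
  induction k with
  | zero => rw [Lk_zero]; simp
  | succ k ih =>
    have e : Lk k = X ^ k - derivative (Lk k) := by rw [← ih]; ring
    rw [Lk_succ]
    simp only [derivative_sub, derivative_X_pow, derivative_C_mul, Nat.add_sub_cancel]
    have : X ^ (k + 1) - C ((k : ℝ) + 1) * Lk k + (C ((k + 1 : ℕ) : ℝ) * X ^ k - C ((k : ℝ) + 1) * derivative (Lk k)) =
        X ^ (k + 1) + C ((k : ℝ) + 1) * (X ^ k - (Lk k + derivative (Lk k))) := by
      push_cast
      ring
    rw [this, ih]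
    ring

theorem sum_log_pow (k : ℕ) : ∃ c : ℝ, 0 ≤ c ∧ ∀ x : ℕ, 1 ≤ x →
    |∑ n ∈ Icc 1 x, Real.log n ^ k - x * (Lk k).eval (Real.log x)| ≤ c + Real.log x ^ k := by
  refine ⟨1 + |(Lk k).eval 0|, by positivity, fun x hx => ?_⟩
  obtain ⟨F, hF⟩ : ∃ F : ℝ → ℝ, F = fun y => y * (Lk k).eval (Real.log y) := ⟨_, rfl⟩
  have hder : ∀ y : ℝ, 0 < y → HasDerivAt F (Real.log y ^ k) y := by
    intro y hy
    have h1 : HasDerivAt (fun y => (Lk k).eval (Real.log y)) ((derivative (Lk k)).eval (Real.log y) * y⁻¹) y :=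
      ((Lk k).hasDerivAt (Real.log y)).comp y (Real.hasDerivAt_log hy.ne')
    have h2 : HasDerivAt (fun y => y * (Lk k).eval (Real.log y))
        (1 * (Lk k).eval (Real.log y) + y * ((derivative (Lk k)).eval (Real.log y) * y⁻¹)) y := (hasDerivAt_id y).mul h1
    have h3 : (Lk k).eval (Real.log y) + (derivative (Lk k)).eval (Real.log y) = Real.log y ^ k := by
      rw [← eval_add, Lk_eq, eval_pow, eval_X]
    have h4 : 1 * (Lk k).eval (Real.log y) + y * ((derivative (Lk k)).eval (Real.log y) * y⁻¹) = Real.log y ^ k := by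
      rw [← h3]
      field_simp
    rw [hF, ← h4]
    exact h2
  -- one step
  have hstep : ∀ n : ℕ, 1 ≤ n → |F (n + 1 : ℕ) - F n - Real.log (n + 1 : ℕ) ^ k| ≤ Real.log (n + 1 : ℕ) ^ k - Real.log n ^ k := by
    intro n hn
    have hn0 : (0 : ℝ) < n := by exact_mod_cast hn
    have hlt : (n : ℝ) < (n + 1 : ℕ) := by push_cast; linarith
    obtain ⟨c, hc, hce⟩ := exists_hasDerivAt_eq_slope F (fun y => Real.log y ^ k) hlt
      (fun y hy => (hder y (lt_of_lt_of_le hn0 hy.1)).continuousAt.continuousWithinAt)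
      (fun y hy => hder y (lt_trans hn0 hy.1))
    have e1 : ((n + 1 : ℕ) : ℝ) - n = 1 := by push_cast; ring
    rw [e1, div_one] at hce
    have hc0 : 0 < c := lt_trans hn0 hc.1
    have hl1 : Real.log n ≤ Real.log c := Real.log_le_log hn0 hc.1.le
    have hl2 : Real.log c ≤ Real.log (n + 1 : ℕ) := Real.log_le_log hc0 hc.2.le
    have hl0 : 0 ≤ Real.log n := Real.log_natCast_nonneg n
    have g1 : Real.log n ^ k ≤ Real.log c ^ k := pow_le_pow_left₀ hl0 hl1 k
    have g2 : Real.log c ^ k ≤ Real.log (n + 1 : ℕ) ^ k := pow_le_pow_left₀ (hl0.trans hl1) hl2 k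
    rw [← hce, abs_le]
    constructor <;> linarith
  -- telescoping
  have htel : ∀ x : ℕ, 1 ≤ x → |∑ n ∈ Icc 1 x, Real.log n ^ k - F x - ((Real.log (1 : ℕ)) ^ k - F (1 : ℕ))| ≤ Real.log x ^ k - Real.log (1 : ℕ) ^ k := by
    intro x hx
    induction x, hx using Nat.le_induction with
    | base =>
      simp
    | succ n hn ih =>
      have h1 := hstep n hn
      rw [sum_Icc_succ_top (by omega)]
      have e : ∑ m ∈ Icc 1 n, Real.log m ^ k + Real.log (n + 1 : ℕ) ^ k - F (n + 1 : ℕ) - ((Real.log (1 : ℕ)) ^ k - F (1 : ℕ)) =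
          (∑ m ∈ Icc 1 n, Real.log m ^ k - F n - ((Real.log (1 : ℕ)) ^ k - F (1 : ℕ))) - (F (n + 1 : ℕ) - F n - Real.log (n + 1 : ℕ) ^ k) := by ring
      rw [e]
      refine (abs_sub _ _).trans ?_
      linarith
  have h1 := htel x hx
  have hF1 : F (1 : ℕ) = (Lk k).eval 0 := by rw [hF]; simp
  have h01 : 0 ≤ Real.log (1 : ℕ) ^ k := by simp
  have h02 : Real.log (1 : ℕ) ^ k ≤ 1 := by
    rw [Nat.cast_one, Real.log_one]
    rcases Nat.eq_zero_or_pos k with h | h
    · rw [h, pow_zero]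
    · rw [zero_pow (by omega)]; norm_num
  have e2 : (x : ℝ) * (Lk k).eval (Real.log x) = F x := by rw [hF]
  rw [e2]
  have h3 : |Real.log (1 : ℕ) ^ k - F (1 : ℕ)| ≤ 1 + |(Lk k).eval 0| := by
    rw [hF1]
    refine (abs_sub _ _).trans ?_
    rw [abs_of_nonneg h01]
    linarith
  calc |∑ n ∈ Icc 1 x, Real.log n ^ k - F x| = |(∑ n ∈ Icc 1 x, Real.log n ^ k - F x - ((Real.log (1 : ℕ)) ^ k - F (1 : ℕ))) +
        ((Real.log (1 : ℕ)) ^ k - F (1 : ℕ))| := by ring_nf
    _ ≤ _ := by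
        refine (abs_add_le _ _).trans ?_
        linarith

end Pool.Agent.TH212.PS
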