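import Pool.Agent.TH212.PS.P2

set_option autoImplicit false

/-! Power saving: pointwise bounds and the first moment over a family. -/

namespace Pool.Agent.TH212.PS
open Finset
open Pool.Agent.H807R2.Dav
open Pool.Agent.TH212.DV
open Pool.Agent.H373R2.T7 (orth sq_expand majorant_pow parseval_Icc triple fz energy)
open Pool.Agent.TH212.PL (En enum sum_enum energy_enum moment_energy)

lemma pt_dk (s : ℕ) (ε : ℝ) (hε : 0 < ε) : ∃ N₀ : ℕ, ∀ N : ℕ, N₀ ≤ N → ∀ n : ℕ, 1 ≤ n → n ≤ 2 * N → (dk s n : ℝ) ≤ (N : ℝ) ^ ε := by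
  obtain ⟨C, hC1, hC⟩ := dk_eps s (ε / 2) (by positivity)
  obtain ⟨n1, h1⟩ := ev_pow 0 (C * 2 ^ (ε / 2)) (ε / 2) (by positivity)
  refine ⟨n1 + 1, fun N hN n hn hn2 => ?_⟩
  have a1 := h1 N (by omega)
  rw [pow_zero, mul_one] at a1
  have hN0 : (0 : ℝ) < N := by exact_mod_cast (by omega : 0 < N)
  have hn2' : (n : ℝ) ≤ 2 * N := by exact_mod_cast hn2
  calc (dk s n : ℝ) ≤ C * (n : ℝ) ^ (ε / 2) := hC n hn
    _ ≤ C * (2 * (N : ℝ)) ^ (ε / 2) := by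
        apply mul_le_mul_of_nonneg_left _ (by linarith)
        exact Real.rpow_le_rpow (Nat.cast_nonneg _) hn2' (by positivity)
    _ = C * 2 ^ (ε / 2) * (N : ℝ) ^ (ε / 2) := by rw [Real.mul_rpow (by norm_num) hN0.le]; ring
    _ ≤ (N : ℝ) ^ (ε / 2) * (N : ℝ) ^ (ε / 2) := mul_le_mul_of_nonneg_right a1 (by positivity)
    _ = _ := by rw [← Real.rpow_add hN0]; congr 1; ring

lemma FY_le (Y t D n : ℕ) (hn : 1 ≤ n) : FY (WE Y t) Y D n ≤ (t + 2) * dk (t + 2) n := by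
  unfold FY
  have h1 : ∑ a ∈ (Icc 1 D).filter (fun a => a ∣ n ∧ a * Y < n), WE Y t a ≤ ∑ a ∈ n.divisors, ((t : ℝ) + 2) * dk (t + 1) a := by
    refine (sum_le_sum fun a _ => WE_le Y t a).trans ?_
    apply sum_le_sum_of_subset_of_nonneg
    · intro a ha
      rw [mem_filter] at ha
      rw [Nat.mem_divisors]
      exact ⟨ha.2.1, by omega⟩
    · intro a _ _
      positivity
  refine h1.trans (le_of_eq ?_)
  rw [dk_succ_apply (t + 1), ← mul_sum]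
  push_cast
  rfl

lemma FY_nonneg (W : ℕ → ℝ) (hW : ∀ a, 0 ≤ W a) (Y D n : ℕ) : 0 ≤ FY W Y D n := sum_nonneg fun a _ => hW a

lemma tau_dk (n : ℕ) : dk 2 n = n.divisors.card := by
  rw [dk_succ_apply, card_eq_sum_ones]
  apply sum_congr rfl
  intro d hd
  unfold dk
  rw [pow_one, ArithmeticFunction.zeta_apply_ne (Nat.pos_of_mem_divisors hd).ne']

/-- the weights `ww` are at most `N ^ ε / q` -/
lemma pt_ww (t : ℕ) (ε : ℝ) (hε : 0 < ε) : ∃ N₀ : ℕ, ∀ N : ℕ, N₀ ≤ N → ∀ Y D q n : ℕ, D ≤ 2 * N → 1 ≤ q → q ≤ 2 * N →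
    ww (WE Y t) Y D q n ≤ (N : ℝ) ^ ε / q := by
  obtain ⟨n1, h1⟩ := pt_dk (t + 1) (ε / 2) (by positivity)
  obtain ⟨n2, h2⟩ := ev_pow (t + 1) ((t + 2) * 3 ^ (t + 1)) (ε / 2) (by positivity)
  obtain ⟨n3, h3⟩ := ev_log 1
  refine ⟨n1 + n2 + n3 + 2, fun N hN Y D q n hD hq hq2 => ?_⟩
  have a1 := h1 N (by omega) q hq hq2
  have a2 := h2 N (by omega)
  have a3 := h3 N (by omega)
  have hN0 : (0 : ℝ) < N := by exact_mod_cast (by omega : 0 < N)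
  have hq0 : (0 : ℝ) < q := by exact_mod_cast hq
  refine (ww_le (WE Y t) (WE_nonneg Y t) Y D q n).trans ?_
  refine (RR_le (WE Y t) (t + 2) t D q (WE_le Y t) (by positivity) hq).trans ?_
  have hlD : Real.log D ≤ 2 * Real.log N := by
    rcases Nat.eq_zero_or_pos D with h | h
    · rw [h, Nat.cast_zero, Real.log_zero]; linarith
    · have h4 : (D : ℝ) ≤ (N : ℝ) ^ 2 := by
        have : (D : ℝ) ≤ 2 * N := by exact_mod_cast hD
        have h4 : (2 : ℝ) ≤ N := by exact_mod_cast (by omega : 2 ≤ N)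
        nlinarith
      have h5 := Real.log_le_log (by exact_mod_cast h : (0 : ℝ) < D) h4
      rw [Real.log_pow] at h5
      exact_mod_cast h5
  have hlD0 : 0 ≤ Real.log D := Real.log_natCast_nonneg D
  have h4 : (1 + Real.log D) ^ (t + 1) ≤ 3 ^ (t + 1) * Real.log N ^ (t + 1) := by
    rw [← mul_pow]
    exact pow_le_pow_left₀ (by linarith) (by linarith) _
  calc ((t : ℝ) + 2) * ((dk (t + 1) q : ℝ) / q) * (1 + Real.log D) ^ (t + 1)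
      ≤ ((t : ℝ) + 2) * ((N : ℝ) ^ (ε / 2) / q) * (3 ^ (t + 1) * Real.log N ^ (t + 1)) := by
        apply mul_le_mul _ h4 (by positivity) (by positivity)
        apply mul_le_mul_of_nonneg_left _ (by positivity)
        exact div_le_div_of_nonneg_right a1 hq0.le
    _ = (N : ℝ) ^ (ε / 2) * (((t : ℝ) + 2) * 3 ^ (t + 1) * Real.log N ^ (t + 1)) / q := by ring
    _ ≤ (N : ℝ) ^ (ε / 2) * (N : ℝ) ^ (ε / 2) / q := by
        apply div_le_div_of_nonneg_right _ hq0.le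
        exact mul_le_mul_of_nonneg_left a2 (by positivity)
    _ = _ := by rw [← Real.rpow_add hN0]; congr 2; ring

/-- pointwise bounds -/
lemma pt_bounds (t : ℕ) (ε : ℝ) (hε : 0 < ε) : ∃ N₀ : ℕ, ∀ N : ℕ, N₀ ≤ N → ∀ Y D z n : ℕ, D ≤ 2 * N → z ≤ 2 * N → 1 ≤ n → n ≤ 2 * N →
    (dk (t + 2) n : ℝ) ≤ (N : ℝ) ^ ε ∧ FY (WE Y t) Y D n ≤ (N : ℝ) ^ ε ∧ |MY (WE Y t) Y D z n| ≤ (N : ℝ) ^ ε := by
  obtain ⟨n1, h1⟩ := pt_dk (t + 2) (ε / 2) (by positivity)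
  obtain ⟨n2, h2⟩ := ev_pow 0 (t + 2) (ε / 2) (by positivity)
  obtain ⟨n3, h3⟩ := pt_ww t (ε / 3) (by positivity)
  obtain ⟨n4, h4⟩ := pt_dk 2 (ε / 3) (by positivity)
  obtain ⟨n5, h5⟩ := ev_pow 1 3 (ε / 3) (by positivity)
  obtain ⟨n6, h6⟩ := ev_log 1
  refine ⟨n1 + n2 + n3 + n4 + n5 + n6 + 2, fun N hN Y D z n hD hz hn hn2 => ?_⟩
  have a1 := h1 N (by omega) n hn hn2
  have a2 := h2 N (by omega)
  have a4 := h4 N (by omega) n hn hn2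
  have a5 := h5 N (by omega)
  have a6 := h6 N (by omega)
  rw [pow_zero, mul_one] at a2
  rw [pow_one] at a5
  have hN0 : (0 : ℝ) < N := by exact_mod_cast (by omega : 0 < N)
  have hN1 : (1 : ℝ) ≤ N := by exact_mod_cast (by omega : 1 ≤ N)
  refine ⟨?_, ?_, ?_⟩
  · exact a1.trans (Real.rpow_le_rpow_of_exponent_le hN1 (by linarith))
  · refine (FY_le Y t D n hn).trans ?_
    calc ((t : ℝ) + 2) * dk (t + 2) n ≤ (N : ℝ) ^ (ε / 2) * (N : ℝ) ^ (ε / 2) := mul_le_mul a2 a1 (by positivity) (by positivity)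
      _ = _ := by rw [← Real.rpow_add hN0]; congr 1; ring
  · unfold MY
    refine (abs_sum_le_sum_abs _ _).trans ?_
    have e1 : ∀ q ∈ Icc 1 z, |ww (WE Y t) Y D q n * (cz q (n : ℤ) : ℝ)| ≤ (N : ℝ) ^ (ε / 3) * (1 / (q : ℝ) * |(cz q (n : ℤ) : ℝ)|) := by
      intro q hq
      rw [mem_Icc] at hq
      rw [abs_mul, abs_of_nonneg (ww_nonneg _ (WE_nonneg Y t) Y D q n)]
      have := h3 N (by omega) Y D q n hD hq.1 (by omega)
      calc ww (WE Y t) Y D q n * |(cz q (n : ℤ) : ℝ)| ≤ (N : ℝ) ^ (ε / 3) / q * |(cz q (n : ℤ) : ℝ)| := mul_le_mul_of_nonneg_right this (abs_nonneg _)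
        _ = _ := by ring
    refine (sum_le_sum e1).trans ?_
    rw [← mul_sum]
    have e2 := cz_inv_sum z n hn
    rw [← tau_dk n] at e2
    have e3 : 1 + Real.log z ≤ 3 * Real.log N := by
      rcases Nat.eq_zero_or_pos z with h | h
      · rw [h, Nat.cast_zero, Real.log_zero]; linarith
      · have h4 : (z : ℝ) ≤ (N : ℝ) ^ 2 := by
          have : (z : ℝ) ≤ 2 * N := by exact_mod_cast hz
          have h4 : (2 : ℝ) ≤ N := by exact_mod_cast (by omega : 2 ≤ N)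
          nlinarith
        have h5 := Real.log_le_log (by exact_mod_cast h : (0 : ℝ) < z) h4
        rw [Real.log_pow] at h5
        push_cast at h5
        linarith
    have e4 : (0 : ℝ) ≤ 1 + Real.log z := by have := Real.log_natCast_nonneg z; linarith
    calc (N : ℝ) ^ (ε / 3) * ∑ q ∈ Icc 1 z, 1 / (q : ℝ) * |(cz q (n : ℤ) : ℝ)| ≤ (N : ℝ) ^ (ε / 3) * ((N : ℝ) ^ (ε / 3) * (N : ℝ) ^ (ε / 3)) := by
          apply mul_le_mul_of_nonneg_left _ (by positivity)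
          refine e2.trans ?_
          exact mul_le_mul a4 (e3.trans a5) e4 (by positivity)
      _ = _ := by rw [← Real.rpow_add hN0, ← Real.rpow_add hN0]; congr 1; ring

/-- the first moment over a family of shifts of nearly minimal energy, with power saving -/
theorem fam_pow (p : ℕ) (κ θ : ℝ) (hκ : 0 < κ) (hθ0 : 0 < θ) (hθ : 16 * ((p : ℝ) + 1) * θ ≤ κ) : ∃ N₀ : ℕ, ∀ N : ℕ, N₀ ≤ N →
    ∀ (ι : Type) [Fintype ι] (v : ι → ℤ), (∀ i, |v i| ≤ N) → (En p v : ℝ) * N ≤ (N : ℝ) ^ θ * (Fintype.card ι : ℝ) ^ (2 * p) →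
    ∀ A H : ℕ, A ≤ 2 * N → H ≤ 2 * N → ∀ G f : ℕ → ℝ, (∀ a ∈ Icc 1 A, |G a| ≤ (N : ℝ) ^ θ) → (∀ n ∈ Icc 1 H, |f n| ≤ (N : ℝ) ^ θ) →
    (∀ α : ℝ, ‖∑ n ∈ Icc 1 H, ((f n : ℝ) : ℂ) * ee ((n : ℝ) * α)‖ ≤ (N : ℝ) ^ (1 - κ)) →
    ∑ i, |∑ a ∈ Icc 1 A, G a * (if 1 ≤ (a : ℤ) + v i ∧ (a : ℤ) + v i ≤ H then f ((a : ℤ) + v i).toNat else 0)| ≤
      (N : ℝ) ^ (1 - θ) * Fintype.card ι := by
  obtain ⟨n1, h1⟩ := ev_pow 0 4 θ hθ0
  refine ⟨n1 + 1, fun N hN ι _ v hv hE A H hA hH G f hG hf hsup => ?_⟩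
  have a1 := h1 N (by omega)
  rw [pow_zero, mul_one] at a1
  have hN1 : 1 ≤ N := by omega
  have hN0 : (0 : ℝ) < N := by exact_mod_cast hN1
  have hNr : (1 : ℝ) ≤ N := by exact_mod_cast hN1
  have hp0 : (0 : ℝ) ≤ p := Nat.cast_nonneg p
  rcases isEmpty_or_nonempty ι with hι | hι
  · simp
  obtain ⟨g, hinj, hsurj⟩ := enum ι
  obtain ⟨x, hx⟩ : ∃ x, x = Fintype.card ι := ⟨_, rfl⟩
  have hx1 : 1 ≤ x := by rw [hx]; exact Fintype.card_pos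
  have hx0 : (0 : ℝ) < x := by exact_mod_cast hx1
  obtain ⟨s, hs⟩ : ∃ s : ℕ → ℤ, s = fun m => v (g m) := ⟨_, rfl⟩
  have hsB : ∀ m ∈ Icc 1 x, |s m| ≤ ((N : ℕ) : ℤ) := by
    intro m _
    rw [hs]
    exact hv (g m)
  have hen : (energy p x s : ℝ) ≤ En p v := by
    have := energy_enum p v g 0 hinj
    simp only [sub_zero] at this
    rw [hs, hx]
    exact_mod_cast this
  obtain ⟨M, hM⟩ : ∃ M : ℕ, M = (4 * p + 5) * N := ⟨_, rfl⟩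
  have hM5 : 5 * N ≤ M := by rw [hM]; exact Nat.mul_le_mul_right _ (by omega)
  have hM1 : 1 ≤ M := by omega
  have hM0 : (0 : ℝ) < M := by exact_mod_cast hM1
  have hMr : (M : ℝ) = (4 * p + 5) * N := by rw [hM]; push_cast; ring
  have hcond : ∀ a ∈ Icc 1 A, ∀ m ∈ Icc 1 x, ∀ n ∈ Icc 1 H, |(a : ℤ) + s m - n| < M := by
    intro a ha m hm n hn
    have h4 := abs_le.1 (hsB m hm)
    rw [mem_Icc] at ha hn
    have h5 : (a : ℤ) ≤ 2 * N := by exact_mod_cast ha.2.trans hA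
    have h6 : (n : ℤ) ≤ 2 * N := by exact_mod_cast hn.2.trans hH
    have h7 : (5 : ℤ) * N ≤ M := by exact_mod_cast hM5
    have h9 : (1 : ℤ) ≤ N := by exact_mod_cast hN1
    have h10 : (0 : ℤ) ≤ a := by positivity
    have h11 : (0 : ℤ) ≤ n := by positivity
    rw [abs_lt]
    constructor <;> linarith [h4.1, h4.2]
  have hmomE := moment_energy p x s M N hM1 hsB (by
    rw [hM]
    exact Nat.mul_lt_mul_of_pos_right (by omega) hN1)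
  obtain ⟨C0, hC0⟩ : ∃ C0 : ℝ, C0 = (4 * p + 5) * (N : ℝ) ^ θ := ⟨_, rfl⟩
  have hmom : ∑ t ∈ range M, (‖∑ m ∈ Icc 1 x, ee ((t : ℝ) * ((s m : ℝ) / M))‖ / x) ^ (2 * p) ≤ C0 := by
    have h2 : ∑ t ∈ range M, (‖∑ m ∈ Icc 1 x, ee ((t : ℝ) * ((s m : ℝ) / M))‖ / x) ^ (2 * p) =
        (M * energy p x s) / (x : ℝ) ^ (2 * p) := by
      rw [← hmomE, sum_div]
      exact sum_congr rfl fun t _ => div_pow _ _ _
    rw [h2, div_le_iff₀ (by positivity), hMr]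
    calc (4 * (p : ℝ) + 5) * N * energy p x s = (4 * p + 5) * (energy p x s * N) := by ring
      _ ≤ (4 * p + 5) * ((N : ℝ) ^ θ * (x : ℝ) ^ (2 * p)) := by
          apply mul_le_mul_of_nonneg_left _ (by positivity)
          refine (mul_le_mul_of_nonneg_right hen hN0.le).trans ?_
          rw [hx]
          exact hE
      _ = _ := by rw [hC0]; ring
  obtain ⟨S, hS⟩ : ∃ S : ℕ → ℝ, S = fun m => ∑ a ∈ Icc 1 A, G a *
      (if 1 ≤ (a : ℤ) + s m ∧ (a : ℤ) + s m ≤ H then f ((a : ℤ) + s m).toNat else 0) := ⟨_, rfl⟩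
  obtain ⟨c, hc⟩ : ∃ c : ℕ → ℂ, c = fun m => if 0 ≤ S m then 1 else -1 := ⟨_, rfl⟩
  have hc1 : ∀ m, ‖c m‖ ≤ 1 := by
    intro m
    rw [hc]
    simp only
    split_ifs <;> simp
  have hcS : ∀ m, c m * (S m : ℂ) = ((|S m| : ℝ) : ℂ) := by
    intro m
    rw [hc]
    simp only
    split_ifs with h
    · rw [abs_of_nonneg h, one_mul]
    · rw [abs_of_neg (not_le.1 h)]
      push_cast
      ring
  have hNθ : 0 < (N : ℝ) ^ θ := Real.rpow_pos_of_pos hN0 _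
  have hA' : ((A : ℕ) : ℝ) ≤ 2 * N := by exact_mod_cast hA
  have hH' : ((H : ℕ) : ℝ) ≤ 2 * N := by exact_mod_cast hH
  have hG1 : ∑ a ∈ Icc 1 A, ‖((G a : ℝ) : ℂ)‖ ≤ 2 * N * (N : ℝ) ^ θ := by
    have q1 : ∀ a ∈ Icc 1 A, ‖((G a : ℝ) : ℂ)‖ ≤ (N : ℝ) ^ θ := by
      intro a ha
      rw [Complex.norm_real, Real.norm_eq_abs]
      exact hG a ha
    refine (sum_le_sum q1).trans ?_
    rw [sum_const, Nat.card_Icc, nsmul_eq_mul, Nat.add_sub_cancel]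
    exact mul_le_mul_of_nonneg_right hA' hNθ.le
  have hG2 : ∑ a ∈ Icc 1 A, ‖((G a : ℝ) : ℂ)‖ ^ 2 ≤ 2 * N * ((N : ℝ) ^ θ) ^ 2 := by
    have q1 : ∀ a ∈ Icc 1 A, ‖((G a : ℝ) : ℂ)‖ ^ 2 ≤ ((N : ℝ) ^ θ) ^ 2 := by
      intro a ha
      rw [Complex.norm_real, Real.norm_eq_abs]
      exact pow_le_pow_left₀ (abs_nonneg _) (hG a ha) 2
    refine (sum_le_sum q1).trans ?_
    rw [sum_const, Nat.card_Icc, nsmul_eq_mul, Nat.add_sub_cancel]
    exact mul_le_mul_of_nonneg_right hA' (by positivity)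
  have hf2 : ∑ a ∈ Icc 1 H, ‖((f a : ℝ) : ℂ)‖ ^ 2 ≤ 2 * N * ((N : ℝ) ^ θ) ^ 2 := by
    have q1 : ∀ a ∈ Icc 1 H, ‖((f a : ℝ) : ℂ)‖ ^ 2 ≤ ((N : ℝ) ^ θ) ^ 2 := by
      intro a ha
      rw [Complex.norm_real, Real.norm_eq_abs]
      exact pow_le_pow_left₀ (abs_nonneg _) (hf a ha) 2
    refine (sum_le_sum q1).trans ?_
    rw [sum_const, Nat.card_Icc, nsmul_eq_mul, Nat.add_sub_cancel]
    exact mul_le_mul_of_nonneg_right hH' (by positivity)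
  obtain ⟨η, hη⟩ : ∃ η : ℝ, η = (N : ℝ) ^ (-(4 * θ)) := ⟨_, rfl⟩
  have hη0 : 0 < η := by rw [hη]; positivity
  have key := bil_l2 A H x M hM1 (fun n => ((f n : ℝ) : ℂ)) (fun n => ((G n : ℝ) : ℂ)) c s ((N : ℝ) ^ (1 - κ)) η p C0
    (2 * N * ((N : ℝ) ^ θ) ^ 2) (2 * N * (N : ℝ) ^ θ) (2 * N * ((N : ℝ) ^ θ) ^ 2) hcond (by omega) (by omega) hx1 hsup hG1 hG2 hc1 hmom hf2 hη0
  have heq : ∑ a ∈ Icc 1 A, ∑ m ∈ Icc 1 x, ((G a : ℝ) : ℂ) * c m * fz (fun n => ((f n : ℝ) : ℂ)) H (a + s m) =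
      ((∑ m ∈ Icc 1 x, |S m| : ℝ) : ℂ) := by
    rw [sum_comm]
    push_cast
    apply sum_congr rfl
    intro m _
    rw [← hcS m, hS]
    push_cast
    rw [mul_sum]
    apply sum_congr rfl
    intro a _
    unfold fz
    split_ifs <;> simp
    ring
  rw [heq, Complex.norm_real, Real.norm_of_nonneg (sum_nonneg fun _ _ => abs_nonneg _)] at key
  have e1 : ∑ i, |∑ a ∈ Icc 1 A, G a * (if 1 ≤ (a : ℤ) + v i ∧ (a : ℤ) + v i ≤ H then f ((a : ℤ) + v i).toNat else 0)| =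
      ∑ m ∈ Icc 1 x, |S m| := by
    rw [hx, ← sum_enum g hinj hsurj, hS, hs]
  rw [e1, ← hx]
  refine key.trans ?_
  have t1 : C0 / η ^ (2 * p) * (N : ℝ) ^ (1 - κ) * (2 * N * (N : ℝ) ^ θ) * x / M ≤ 1 / 2 * ((N : ℝ) ^ (1 - θ) * x) := by
    have e2 : η ^ (2 * p) = (N : ℝ) ^ (-(8 * p * θ)) := by
      rw [hη, ← Real.rpow_natCast, ← Real.rpow_mul hN0.le]
      congr 1
      push_cast
      ring
    have e3 : C0 / η ^ (2 * p) * (N : ℝ) ^ (1 - κ) * (2 * N * (N : ℝ) ^ θ) * x / M =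
        2 * ((N : ℝ) ^ θ * (N : ℝ) ^ (8 * p * θ) * (N : ℝ) ^ (1 - κ) * (N : ℝ) ^ θ) * x := by
      rw [hC0, e2, hMr, Real.rpow_neg hN0.le]
      have : (N : ℝ) ^ (8 * (p : ℝ) * θ) ≠ 0 := (Real.rpow_pos_of_pos hN0 _).ne'
      field_simp
    rw [e3, ← Real.rpow_add hN0, ← Real.rpow_add hN0, ← Real.rpow_add hN0]
    have e4 : 4 * (N : ℝ) ^ (θ + 8 * p * θ + (1 - κ) + θ) ≤ (N : ℝ) ^ (1 - θ) := by
      calc 4 * (N : ℝ) ^ (θ + 8 * p * θ + (1 - κ) + θ) ≤ (N : ℝ) ^ θ * (N : ℝ) ^ (θ + 8 * p * θ + (1 - κ) + θ) :=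
            mul_le_mul_of_nonneg_right a1 (by positivity)
        _ = (N : ℝ) ^ (θ + (θ + 8 * p * θ + (1 - κ) + θ)) := by rw [← Real.rpow_add hN0]
        _ ≤ _ := by
            apply Real.rpow_le_rpow_of_exponent_le hNr
            nlinarith [mul_nonneg hp0 hθ0.le]
    nlinarith [mul_le_mul_of_nonneg_right e4 hx0.le]
  have t2 : η * x * Real.sqrt (2 * N * ((N : ℝ) ^ θ) ^ 2 * (2 * N * ((N : ℝ) ^ θ) ^ 2)) ≤ 1 / 2 * ((N : ℝ) ^ (1 - θ) * x) := by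
    rw [Real.sqrt_mul_self (by positivity)]
    have e2 : ((N : ℝ) ^ θ) ^ 2 = (N : ℝ) ^ (2 * θ) := by
      rw [← Real.rpow_natCast, ← Real.rpow_mul hN0.le]; congr 1; push_cast; ring
    rw [e2, hη]
    have e3 : (N : ℝ) ^ (-(4 * θ)) * x * (2 * N * (N : ℝ) ^ (2 * θ)) = 2 * ((N : ℝ) ^ (-(4 * θ)) * (N : ℝ) ^ (1 : ℝ) * (N : ℝ) ^ (2 * θ)) * x := by
      rw [Real.rpow_one]; ring
    rw [e3, ← Real.rpow_add hN0, ← Real.rpow_add hN0]
    have e4 : 4 * (N : ℝ) ^ (-(4 * θ) + 1 + 2 * θ) ≤ (N : ℝ) ^ (1 - θ) := by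
      calc 4 * (N : ℝ) ^ (-(4 * θ) + 1 + 2 * θ) ≤ (N : ℝ) ^ θ * (N : ℝ) ^ (-(4 * θ) + 1 + 2 * θ) :=
            mul_le_mul_of_nonneg_right a1 (by positivity)
        _ = (N : ℝ) ^ (θ + (-(4 * θ) + 1 + 2 * θ)) := by rw [← Real.rpow_add hN0]
        _ ≤ _ := by
            apply Real.rpow_le_rpow_of_exponent_le hNr
            linarith
    nlinarith [mul_le_mul_of_nonneg_right e4 hx0.le]
  calc _ ≤ 1 / 2 * ((N : ℝ) ^ (1 - θ) * x) + 1 / 2 * ((N : ℝ) ^ (1 - θ) * x) := add_le_add t1 t2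
    _ = _ := by ring

end Pool.Agent.TH212.PS
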