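import Pool.Agent.TH212.PS.P3

set_option autoImplicit false

/-! Power saving: correlations of the models. -/

namespace Pool.Agent.TH212.PS
open Finset
open Pool.Agent.H807R2.Dav
open Pool.Agent.TH212.DV

lemma abel_c (w : ℕ → ℝ) (c : ℕ → ℂ) (B : ℝ) (A : ℕ) (hw0 : 0 ≤ w 0) (hw : ∀ n, w n ≤ w (n + 1))
    (hB : ∀ m, m ≤ A → ‖∑ n ∈ Icc 1 m, c n‖ ≤ B) : ‖∑ n ∈ Icc 1 A, (w n : ℂ) * c n‖ ≤ 2 * w A * B := by
  have hmono : Monotone w := monotone_nat_of_le_succ hw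
  have key : ∀ m, m ≤ A → ‖∑ n ∈ Icc 1 m, (w n : ℂ) * c n - (w m : ℂ) * ∑ n ∈ Icc 1 m, c n‖ ≤ (w m - w 0) * B := by
    intro m
    induction m with
    | zero =>
      intro _
      simp
    | succ m ih =>
      intro hm
      have h1 := ih (by omega)
      rw [sum_Icc_succ_top (by omega), sum_Icc_succ_top (by omega)]
      have e : ∑ n ∈ Icc 1 m, (w n : ℂ) * c n + (w (m + 1) : ℂ) * c (m + 1) - (w (m + 1) : ℂ) * (∑ n ∈ Icc 1 m, c n + c (m + 1)) =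
          (∑ n ∈ Icc 1 m, (w n : ℂ) * c n - (w m : ℂ) * ∑ n ∈ Icc 1 m, c n) - ((w (m + 1) - w m : ℝ) : ℂ) * ∑ n ∈ Icc 1 m, c n := by
        push_cast
        ring
      rw [e]
      refine (norm_sub_le _ _).trans ?_
      rw [norm_mul, Complex.norm_real, Real.norm_eq_abs, abs_of_nonneg (by linarith [hw m])]
      have h2 : (w (m + 1) - w m) * ‖∑ n ∈ Icc 1 m, c n‖ ≤ (w (m + 1) - w m) * B :=
        mul_le_mul_of_nonneg_left (hB m (by omega)) (by linarith [hw m])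
      linarith
  have h1 := key A le_rfl
  have h2 : ‖(w A : ℂ) * ∑ n ∈ Icc 1 A, c n‖ ≤ w A * B := by
    rw [norm_mul, Complex.norm_real, Real.norm_eq_abs, abs_of_nonneg (hw0.trans (hmono (Nat.zero_le A)))]
    exact mul_le_mul_of_nonneg_left (hB A le_rfl) (hw0.trans (hmono (Nat.zero_le A)))
  have hB0 : 0 ≤ B := (norm_nonneg _).trans (hB 0 (Nat.zero_le _))
  calc ‖∑ n ∈ Icc 1 A, (w n : ℂ) * c n‖ = ‖(∑ n ∈ Icc 1 A, (w n : ℂ) * c n - (w A : ℂ) * ∑ n ∈ Icc 1 A, c n) + (w A : ℂ) * ∑ n ∈ Icc 1 A, c n‖ := by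
        congr 1; ring
    _ ≤ (w A - w 0) * B + w A * B := (norm_add_le _ _).trans (add_le_add h1 h2)
    _ ≤ _ := by nlinarith

lemma ww_zero (W : ℕ → ℝ) (Y D q : ℕ) : ww W Y D q 0 = 0 := by
  unfold ww
  apply sum_eq_zero
  intro a ha
  rw [mem_filter] at ha
  omega

lemma MY_zero (W : ℕ → ℝ) (Y D z : ℕ) : MY W Y D z 0 = 0 := by
  unfold MY
  exact sum_eq_zero fun q _ => by rw [ww_zero, zero_mul]

lemma FY_zero (W : ℕ → ℝ) (Y D : ℕ) : FY W Y D 0 = 0 := by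
  unfold FY
  apply sum_eq_zero
  intro a ha
  rw [mem_filter] at ha
  omega

lemma MY_eq (W : ℕ → ℝ) (Y D z : ℕ) (m : ℤ) :
    ((MY W Y D z m.toNat : ℝ) : ℂ) = ∑ x ∈ PP z, (ww W Y D x.1 m.toNat : ℂ) * ee (m * ((x.2 : ℝ) / x.1)) := by
  rcases le_or_gt m 0 with hm | hm
  · rw [Int.toNat_of_nonpos hm, MY_zero]
    simp only [ww_zero]
    simp
  · have hm' : ((m.toNat : ℕ) : ℤ) = m := Int.toNat_of_nonneg hm.le
    unfold MY PP
    rw [sum_sigma, hm']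
    push_cast
    apply sum_congr rfl
    intro q hq
    rw [mem_Icc] at hq
    rw [← mul_sum]
    congr 1
    rw [← cr_eq q m (by omega)]
    rfl

/-- correlations of two models with moving cut-offs -/
theorem corr_Y (W : ℕ → ℝ) (hW : ∀ a, 0 ≤ W a) (Y D z A : ℕ) (hz : 1 ≤ z) (h : ℤ) (ρ : ℝ) (hρ : 0 ≤ ρ)
    (h1 : ∀ q ∈ Icc 1 z, ∀ n : ℕ, ww W Y D q n ≤ ρ) :
    |∑ n ∈ Icc 1 A, MY W Y D z n * MY W Y D z ((n : ℤ) + h).toNat -
      ∑ q ∈ Icc 1 z, (cz q h : ℝ) * ∑ n ∈ Icc 1 A, ww W Y D q n * ww W Y D q ((n : ℤ) + h).toNat| ≤ 2 * (z : ℝ) ^ 6 * ρ ^ 2 := by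
  classical
  have e0 : ∀ n : ℕ, ((MY W Y D z n : ℝ) : ℂ) = ∑ x ∈ PP z, (ww W Y D x.1 n : ℂ) * ee (-((n : ℝ) * ((x.2 : ℝ) / x.1))) := by
    intro n
    have e1 : ((MY W Y D z n : ℝ) : ℂ) = (starRingEnd ℂ) ((MY W Y D z ((n : ℤ)).toNat : ℝ) : ℂ) := by
      rw [Complex.conj_ofReal, Int.toNat_natCast]
    rw [e1, MY_eq, map_sum]
    apply sum_congr rfl
    intro x _
    rw [map_mul, Complex.conj_ofReal, Pool.Agent.H373R2.T7.conj_ee, Int.toNat_natCast]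
    push_cast
    rfl
  have e2 : ((∑ n ∈ Icc 1 A, MY W Y D z n * MY W Y D z ((n : ℤ) + h).toNat : ℝ) : ℂ) =
      ∑ x ∈ PP z, ∑ y ∈ PP z, ee (h * ((y.2 : ℝ) / y.1)) *
        ∑ n ∈ Icc 1 A, ((ww W Y D x.1 n * ww W Y D y.1 ((n : ℤ) + h).toNat : ℝ) : ℂ) * ee ((n : ℝ) * ((y.2 : ℝ) / y.1 - (x.2 : ℝ) / x.1)) := by
    push_cast
    have e3 : ∀ n ∈ Icc 1 A, ((MY W Y D z n : ℝ) : ℂ) * ((MY W Y D z ((n : ℤ) + h).toNat : ℝ) : ℂ) =
        ∑ x ∈ PP z, ∑ y ∈ PP z, ee (h * ((y.2 : ℝ) / y.1)) * ((ww W Y D x.1 n : ℂ) * (ww W Y D y.1 ((n : ℤ) + h).toNat : ℂ) *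
          ee ((n : ℝ) * ((y.2 : ℝ) / y.1 - (x.2 : ℝ) / x.1))) := by
      intro n _
      rw [e0 n, MY_eq W Y D z, sum_mul_sum]
      apply sum_congr rfl
      intro x _
      apply sum_congr rfl
      intro y _
      have e4 : ee ((((n : ℤ) + h : ℤ) : ℝ) * ((y.2 : ℝ) / y.1)) = ee (h * ((y.2 : ℝ) / y.1)) * ee ((n : ℝ) * ((y.2 : ℝ) / y.1)) := by
        rw [← ee_add]
        congr 1
        push_cast
        ring
      have e5 : ee ((n : ℝ) * ((y.2 : ℝ) / y.1 - (x.2 : ℝ) / x.1)) = ee ((n : ℝ) * ((y.2 : ℝ) / y.1)) * ee (-((n : ℝ) * ((x.2 : ℝ) / x.1))) := by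
        rw [← ee_add]
        congr 1
        ring
      rw [e4, e5]
      ring
    rw [sum_congr rfl e3, sum_comm]
    apply sum_congr rfl
    intro x _
    rw [sum_comm]
    apply sum_congr rfl
    intro y _
    rw [mul_sum]
  have e3 : ((∑ q ∈ Icc 1 z, (cz q h : ℝ) * ∑ n ∈ Icc 1 A, ww W Y D q n * ww W Y D q ((n : ℤ) + h).toNat : ℝ) : ℂ) =
      ∑ x ∈ PP z, ee (h * ((x.2 : ℝ) / x.1)) *
        ∑ n ∈ Icc 1 A, ((ww W Y D x.1 n * ww W Y D x.1 ((n : ℤ) + h).toNat : ℝ) : ℂ) * ee ((n : ℝ) * ((x.2 : ℝ) / x.1 - (x.2 : ℝ) / x.1)) := by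
    unfold PP
    rw [sum_sigma]
    push_cast
    apply sum_congr rfl
    intro q hq
    rw [mem_Icc] at hq
    rw [← cr_eq q h (by omega)]
    unfold cr
    rw [sum_mul]
    apply sum_congr rfl
    intro a _
    congr 1
    apply sum_congr rfl
    intro n _
    rw [sub_self, mul_zero, ee_zero, mul_one]
  have e5 : ((∑ n ∈ Icc 1 A, MY W Y D z n * MY W Y D z ((n : ℤ) + h).toNat -
      ∑ q ∈ Icc 1 z, (cz q h : ℝ) * ∑ n ∈ Icc 1 A, ww W Y D q n * ww W Y D q ((n : ℤ) + h).toNat : ℝ) : ℂ) =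
      ∑ x ∈ PP z, ∑ y ∈ (PP z).erase x, ee (h * ((y.2 : ℝ) / y.1)) *
        ∑ n ∈ Icc 1 A, ((ww W Y D x.1 n * ww W Y D y.1 ((n : ℤ) + h).toNat : ℝ) : ℂ) * ee ((n : ℝ) * ((y.2 : ℝ) / y.1 - (x.2 : ℝ) / x.1)) := by
    rw [Complex.ofReal_sub, e2, e3, ← sum_sub_distrib]
    apply sum_congr rfl
    intro x hx
    rw [← add_sum_erase _ _ hx]
    ring
  have e6 : |∑ n ∈ Icc 1 A, MY W Y D z n * MY W Y D z ((n : ℤ) + h).toNat -
      ∑ q ∈ Icc 1 z, (cz q h : ℝ) * ∑ n ∈ Icc 1 A, ww W Y D q n * ww W Y D q ((n : ℤ) + h).toNat| =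
      ‖((∑ n ∈ Icc 1 A, MY W Y D z n * MY W Y D z ((n : ℤ) + h).toNat -
      ∑ q ∈ Icc 1 z, (cz q h : ℝ) * ∑ n ∈ Icc 1 A, ww W Y D q n * ww W Y D q ((n : ℤ) + h).toNat : ℝ) : ℂ)‖ := by
    rw [Complex.norm_real, Real.norm_eq_abs]
  rw [e6, e5]
  have hz0 : (0 : ℝ) < z := by exact_mod_cast hz
  have hmemq : ∀ x ∈ PP z, x.1 ∈ Icc 1 z := by
    intro x hx
    unfold PP at hx
    exact (mem_sigma.1 hx).1
  calc ‖∑ x ∈ PP z, ∑ y ∈ (PP z).erase x, ee (h * ((y.2 : ℝ) / y.1)) *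
        ∑ n ∈ Icc 1 A, ((ww W Y D x.1 n * ww W Y D y.1 ((n : ℤ) + h).toNat : ℝ) : ℂ) * ee ((n : ℝ) * ((y.2 : ℝ) / y.1 - (x.2 : ℝ) / x.1))‖
      ≤ ∑ x ∈ PP z, ∑ y ∈ (PP z).erase x, 2 * ρ ^ 2 * (z : ℝ) ^ 2 := by
        refine (norm_sum_le _ _).trans (sum_le_sum fun x hx => ?_)
        refine (norm_sum_le _ _).trans (sum_le_sum fun y hy => ?_)
        rw [mem_erase] at hy
        rw [norm_mul, norm_ee, one_mul]
        have g1 := abel_c (fun n => ww W Y D x.1 n * ww W Y D y.1 ((n : ℤ) + h).toNat)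
          (fun n => ee ((n : ℝ) * ((y.2 : ℝ) / y.1 - (x.2 : ℝ) / x.1))) ((z : ℝ) ^ 2) A
          (mul_nonneg (ww_nonneg W hW _ _ _ _) (ww_nonneg W hW _ _ _ _)) (by
            intro n
            apply mul_le_mul (ww_mono W hW _ _ _ _ _ (by omega)) (ww_mono W hW _ _ _ _ _ (by omega)) (ww_nonneg W hW _ _ _ _) (ww_nonneg W hW _ _ _ _))
          (fun m _ => inner_small z m hz x y hx hy.2 (Ne.symm hy.1))
        refine g1.trans ?_
        apply mul_le_mul_of_nonneg_right _ (by positivity)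
        apply mul_le_mul_of_nonneg_left _ (by norm_num)
        rw [pow_two]
        exact mul_le_mul (h1 _ (hmemq x hx) _) (h1 _ (hmemq y hy.2) _) (ww_nonneg W hW _ _ _ _) hρ
    _ ≤ ∑ x ∈ PP z, ∑ y ∈ PP z, 2 * ρ ^ 2 * (z : ℝ) ^ 2 := by
        apply sum_le_sum
        intro x _
        exact sum_le_sum_of_subset_of_nonneg (erase_subset _ _) (fun _ _ _ => by positivity)
    _ = (PP z).card * ((PP z).card * (2 * ρ ^ 2 * (z : ℝ) ^ 2)) := by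
        rw [sum_const, sum_const, nsmul_eq_mul, nsmul_eq_mul]
    _ ≤ (z : ℝ) ^ 2 * ((z : ℝ) ^ 2 * (2 * ρ ^ 2 * (z : ℝ) ^ 2)) := by
        apply mul_le_mul (card_PP z) _ (by positivity) (by positivity)
        exact mul_le_mul_of_nonneg_right (card_PP z) (by positivity)
    _ = _ := by ring

/-- reindexing of a sum over the second variable -/
lemma reindex' (x H : ℕ) (v : ℤ) (hH : ∀ n : ℕ, n ≤ x → (n : ℤ) + v ≤ H) (F f : ℕ → ℝ) (hF : F 0 = 0) :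
    ∑ m ∈ Icc 1 H, F m * (if 1 ≤ (m : ℤ) + -v ∧ (m : ℤ) + -v ≤ x then f ((m : ℤ) + -v).toNat else 0) =
      ∑ n ∈ Icc 1 x, f n * F ((n : ℤ) + v).toNat := by
  have e1 : ∑ m ∈ Icc 1 H, F m * (if 1 ≤ (m : ℤ) + -v ∧ (m : ℤ) + -v ≤ x then f ((m : ℤ) + -v).toNat else 0) =
      ∑ m ∈ (Icc 1 H).filter (fun m : ℕ => 1 ≤ (m : ℤ) + -v ∧ (m : ℤ) + -v ≤ x), F m * f ((m : ℤ) + -v).toNat := by
    rw [sum_filter]
    apply sum_congr rfl
    intro m _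
    split_ifs <;> simp
  have e2 : ∑ n ∈ Icc 1 x, f n * F ((n : ℤ) + v).toNat =
      ∑ n ∈ (Icc 1 x).filter (fun n : ℕ => 1 ≤ (n : ℤ) + v), f n * F ((n : ℤ) + v).toNat := by
    rw [sum_filter]
    apply sum_congr rfl
    intro n _
    split_ifs with h
    · rfl
    · rw [Int.toNat_of_nonpos (by omega), hF, mul_zero]
  rw [e1, e2]
  symm
  apply sum_bij (fun (n : ℕ) _ => ((n : ℤ) + v).toNat)
  · intro n hn
    rw [mem_filter, mem_Icc] at hn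
    have := hH n hn.1.2
    rw [mem_filter, mem_Icc]
    omega
  · intro n hn n' hn' h
    rw [mem_filter, mem_Icc] at hn hn'
    omega
  · intro m hm
    rw [mem_filter, mem_Icc] at hm
    refine ⟨((m : ℤ) - v).toNat, ?_, ?_⟩
    · rw [mem_filter, mem_Icc]; omega
    · omega
  · intro n hn
    rw [mem_filter, mem_Icc] at hn
    have : ((((n : ℤ) + v).toNat : ℤ) + -v).toNat = n := by omega
    rw [this]
    ring

end Pool.Agent.TH212.PS
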