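import Pool.Agent.TH212.PS.P4

set_option autoImplicit false

/-! Power saving: decomposition of the correlation. -/

namespace Pool.Agent.TH212.PS
open Finset
open Pool.Agent.H807R2.Dav
open Pool.Agent.TH212.DV

/-- the correlation of the divisor functions -/
noncomputable def Dr (r x : ℕ) (h : ℤ) : ℝ := ∑ n ∈ Icc 1 x, (dk r n : ℝ) * dk r ((n : ℤ) + h).toNat

/-- the main term -/
noncomputable def Mn (W : ℕ → ℝ) (Y D z x : ℕ) (h : ℤ) : ℝ :=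
  ∑ q ∈ Icc 1 z, (cz q h : ℝ) * ∑ n ∈ Icc 1 x, ww W Y D q n * ww W Y D q ((n : ℤ) + h).toNat

lemma small_sum (S x : ℕ) (g : ℕ → ℝ) (K : ℝ) (hK : 0 ≤ K) (hg : ∀ n ∈ Icc 1 x, |g n| ≤ K) (h0 : ∀ n ∈ Icc 1 x, S < n → g n = 0) :
    |∑ n ∈ Icc 1 x, g n| ≤ S * K := by
  have h1 : ∑ n ∈ Icc 1 x, g n = ∑ n ∈ (Icc 1 x).filter (fun n => n ≤ S), g n := by
    rw [sum_filter]
    apply sum_congr rfl
    intro n hn
    split_ifs with h
    · rfl
    · exact h0 n hn (by omega)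
  rw [h1]
  refine (abs_sum_le_sum_abs _ _).trans ?_
  calc ∑ n ∈ (Icc 1 x).filter (fun n => n ≤ S), |g n| ≤ ∑ n ∈ (Icc 1 x).filter (fun n => n ≤ S), K :=
        sum_le_sum fun n hn => hg n (mem_filter.1 hn).1
    _ = ((Icc 1 x).filter (fun n => n ≤ S)).card * K := by rw [sum_const, nsmul_eq_mul]
    _ ≤ S * K := by
        apply mul_le_mul_of_nonneg_right _ hK
        have : ((Icc 1 x).filter (fun n => n ≤ S)).card ≤ (Icc 1 S).card := card_le_card (by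
          intro n hn
          rw [mem_filter, mem_Icc] at hn
          rw [mem_Icc]
          omega)
        rw [Nat.card_Icc, Nat.add_sub_cancel] at this
        exact_mod_cast this

lemma dk_zero (r : ℕ) : dk r 0 = 0 := by unfold dk; exact ArithmeticFunction.map_zero

lemma decomp (t Y D z x N H : ℕ) (h : ℤ) (K : ℝ) (hK : 0 ≤ K) (hz : 1 ≤ z) (hx : x ≤ N) (hH : H = 2 * N) (hh : |h| ≤ N)
    (hYD : ∀ a n, n ≤ H → a * Y < n → a ≤ D)
    (hd : ∀ n, 1 ≤ n → n ≤ H → (dk (t + 2) n : ℝ) ≤ K ∧ FY (WE Y t) Y D n ≤ K ∧ |MY (WE Y t) Y D z n| ≤ K)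
    (hw : ∀ q ∈ Icc 1 z, ∀ n : ℕ, ww (WE Y t) Y D q n ≤ K) :
    |Dr (t + 2) x h - Mn (WE Y t) Y D z x h| ≤
      |∑ a ∈ Icc 1 x, (dk (t + 2) a : ℝ) * (if 1 ≤ (a : ℤ) + h ∧ (a : ℤ) + h ≤ H then
        (fun n => FY (WE Y t) Y D n - MY (WE Y t) Y D z n) ((a : ℤ) + h).toNat else 0)| +
      |∑ a ∈ Icc 1 H, MY (WE Y t) Y D z a * (if 1 ≤ (a : ℤ) + -h ∧ (a : ℤ) + -h ≤ x then
        (fun n => FY (WE Y t) Y D n - MY (WE Y t) Y D z n) ((a : ℤ) + -h).toNat else 0)| +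
      (2 * (Y : ℝ) ^ (t + 2) * K ^ 2 + 2 * (z : ℝ) ^ 6 * K ^ 2) := by
  have hhb := abs_le.1 hh
  have hbd : ∀ n : ℕ, n ≤ x → (n : ℤ) + h ≤ H := by
    intro n hn
    rw [hH]
    push_cast
    have : (n : ℤ) ≤ N := by exact_mod_cast hn.trans hx
    linarith [hhb.2]
  have hxH : x ≤ H := by omega
  have hM0 : ∀ m : ℕ, m ≤ H → |MY (WE Y t) Y D z m| ≤ K := by
    intro m hm
    rcases Nat.eq_zero_or_pos m with h0 | h0
    · rw [h0, MY_zero, abs_zero]; exact hK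
    · exact (hd m h0 hm).2.2
  have hDF : ∀ m : ℕ, 1 ≤ m → m ≤ H → |(dk (t + 2) m : ℝ) - FY (WE Y t) Y D m| ≤ K := by
    intro m h1 h2
    obtain ⟨g1, g2, _⟩ := hd m h1 h2
    have g3 : 0 ≤ FY (WE Y t) Y D m := FY_nonneg _ (WE_nonneg Y t) _ _ _
    have g4 : (0 : ℝ) ≤ dk (t + 2) m := Nat.cast_nonneg _
    rw [abs_le]
    constructor <;> linarith
  have hDF0 : ∀ m : ℕ, m ≤ H → Y ^ (t + 2) < m → (dk (t + 2) m : ℝ) - FY (WE Y t) Y D m = 0 := by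
    intro m h1 h2
    have g1 := dk_FY Y (t + 2) D m h2 (fun a ha _ => hYD a m h1 ha)
    have g2 : (fun a => (EE Y (t + 2) a : ℝ)) = WE Y t := rfl
    rw [g2] at g1
    rw [g1, sub_self]
  -- the five parts
  have e : Dr (t + 2) x h - Mn (WE Y t) Y D z x h =
      ∑ n ∈ Icc 1 x, (dk (t + 2) n : ℝ) * ((fun m => (dk (t + 2) m : ℝ) - FY (WE Y t) Y D m) ((n : ℤ) + h).toNat) +
      ∑ n ∈ Icc 1 x, (dk (t + 2) n : ℝ) * ((fun m => FY (WE Y t) Y D m - MY (WE Y t) Y D z m) ((n : ℤ) + h).toNat) +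
      ∑ n ∈ Icc 1 x, ((dk (t + 2) n : ℝ) - FY (WE Y t) Y D n) * MY (WE Y t) Y D z ((n : ℤ) + h).toNat +
      ∑ n ∈ Icc 1 x, (FY (WE Y t) Y D n - MY (WE Y t) Y D z n) * MY (WE Y t) Y D z ((n : ℤ) + h).toNat +
      (∑ n ∈ Icc 1 x, MY (WE Y t) Y D z n * MY (WE Y t) Y D z ((n : ℤ) + h).toNat - Mn (WE Y t) Y D z x h) := by
    unfold Dr
    rw [← sum_add_distrib, ← sum_add_distrib, ← sum_add_distrib, ← add_sub_assoc, ← sum_add_distrib]
    congr 1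
    apply sum_congr rfl
    intro n _
    ring
  have a1 : |∑ n ∈ Icc 1 x, (dk (t + 2) n : ℝ) * ((fun m => (dk (t + 2) m : ℝ) - FY (WE Y t) Y D m) ((n : ℤ) + h).toNat)| ≤
      (Y : ℝ) ^ (t + 2) * K ^ 2 := by
    rw [← reindex' x H h hbd (fun m => (dk (t + 2) m : ℝ) - FY (WE Y t) Y D m) (fun n => (dk (t + 2) n : ℝ)) (by
      show (dk (t + 2) 0 : ℝ) - FY (WE Y t) Y D 0 = 0
      rw [dk_zero, FY_zero]; simp)]
    have := small_sum (Y ^ (t + 2)) H (fun m => ((dk (t + 2) m : ℝ) - FY (WE Y t) Y D m) *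
      (if 1 ≤ (m : ℤ) + -h ∧ (m : ℤ) + -h ≤ x then (dk (t + 2) ((m : ℤ) + -h).toNat : ℝ) else 0)) (K ^ 2) (by positivity) (by
        intro m hm
        rw [mem_Icc] at hm
        show |((dk (t + 2) m : ℝ) - FY (WE Y t) Y D m) *
          (if 1 ≤ (m : ℤ) + -h ∧ (m : ℤ) + -h ≤ x then (dk (t + 2) ((m : ℤ) + -h).toNat : ℝ) else 0)| ≤ K ^ 2
        rw [abs_mul, pow_two]
        apply mul_le_mul (hDF m hm.1 hm.2) _ (abs_nonneg _) hK
        split_ifs with hc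
        · rw [abs_of_nonneg (Nat.cast_nonneg _)]
          exact (hd _ (by omega) (by omega)).1
        · rw [abs_zero]; exact hK) (by
        intro m hm hS
        rw [mem_Icc] at hm
        show ((dk (t + 2) m : ℝ) - FY (WE Y t) Y D m) * _ = 0
        rw [hDF0 m hm.2 hS, zero_mul])
    push_cast at this
    exact this
  have a2 : ∑ n ∈ Icc 1 x, (dk (t + 2) n : ℝ) * ((fun m => FY (WE Y t) Y D m - MY (WE Y t) Y D z m) ((n : ℤ) + h).toNat) =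
      ∑ a ∈ Icc 1 x, (dk (t + 2) a : ℝ) * (if 1 ≤ (a : ℤ) + h ∧ (a : ℤ) + h ≤ H then
        (fun n => FY (WE Y t) Y D n - MY (WE Y t) Y D z n) ((a : ℤ) + h).toNat else 0) := by
    apply sum_congr rfl
    intro n hn
    rw [mem_Icc] at hn
    congr 1
    have := hbd n hn.2
    split_ifs with hc
    · rfl
    · have h0 : ((n : ℤ) + h).toNat = 0 := by omega
      show FY (WE Y t) Y D ((n : ℤ) + h).toNat - MY (WE Y t) Y D z ((n : ℤ) + h).toNat = 0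
      rw [h0, FY_zero, MY_zero, sub_zero]
  have a3 : |∑ n ∈ Icc 1 x, ((dk (t + 2) n : ℝ) - FY (WE Y t) Y D n) * MY (WE Y t) Y D z ((n : ℤ) + h).toNat| ≤
      (Y : ℝ) ^ (t + 2) * K ^ 2 := by
    have := small_sum (Y ^ (t + 2)) x (fun n => ((dk (t + 2) n : ℝ) - FY (WE Y t) Y D n) * MY (WE Y t) Y D z ((n : ℤ) + h).toNat)
      (K ^ 2) (by positivity) (by
        intro n hn
        rw [mem_Icc] at hn
        show |((dk (t + 2) n : ℝ) - FY (WE Y t) Y D n) * MY (WE Y t) Y D z ((n : ℤ) + h).toNat| ≤ K ^ 2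
        rw [abs_mul, pow_two]
        have := hbd n hn.2
        exact mul_le_mul (hDF n hn.1 (by omega)) (hM0 _ (by omega)) (abs_nonneg _) hK) (by
        intro n hn hS
        rw [mem_Icc] at hn
        show ((dk (t + 2) n : ℝ) - FY (WE Y t) Y D n) * _ = 0
        rw [hDF0 n (by omega) hS, zero_mul])
    push_cast at this
    exact this
  have a4 : ∑ n ∈ Icc 1 x, (FY (WE Y t) Y D n - MY (WE Y t) Y D z n) * MY (WE Y t) Y D z ((n : ℤ) + h).toNat =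
      ∑ a ∈ Icc 1 H, MY (WE Y t) Y D z a * (if 1 ≤ (a : ℤ) + -h ∧ (a : ℤ) + -h ≤ x then
        (fun n => FY (WE Y t) Y D n - MY (WE Y t) Y D z n) ((a : ℤ) + -h).toNat else 0) :=
    (reindex' x H h hbd (fun m => MY (WE Y t) Y D z m) (fun n => FY (WE Y t) Y D n - MY (WE Y t) Y D z n) (MY_zero _ _ _ _)).symm
  have a5 : |∑ n ∈ Icc 1 x, MY (WE Y t) Y D z n * MY (WE Y t) Y D z ((n : ℤ) + h).toNat - Mn (WE Y t) Y D z x h| ≤
      2 * (z : ℝ) ^ 6 * K ^ 2 := corr_Y (WE Y t) (WE_nonneg Y t) Y D z x hz h K hK hw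
  rw [e, a2, a4]
  refine (abs_add_le _ _).trans ?_
  refine (add_le_add (abs_add_le _ _) le_rfl).trans ?_
  refine (add_le_add (add_le_add (abs_add_le _ _) le_rfl) le_rfl).trans ?_
  refine (add_le_add (add_le_add (add_le_add (abs_add_le _ _) le_rfl) le_rfl) le_rfl).trans ?_
  linarith

lemma Dr_inc (r x x' N : ℕ) (h : ℤ) (K : ℝ) (hK : 0 ≤ K) (hxx : x ≤ x') (hx' : x' ≤ N) (hh : |h| ≤ N)
    (hd : ∀ n, 1 ≤ n → n ≤ 2 * N → (dk r n : ℝ) ≤ K) : |Dr r x' h - Dr r x h| ≤ ((x' : ℝ) - x) * K ^ 2 := by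
  have hhb := abs_le.1 hh
  have h1 : Icc 1 x' = Icc 1 x ∪ Ioc x x' := by
    ext n
    rw [mem_union, mem_Icc, mem_Icc, mem_Ioc]
    omega
  have h2 : Disjoint (Icc 1 x) (Ioc x x') := by
    rw [disjoint_left]
    intro n h2 h3
    rw [mem_Icc] at h2
    rw [mem_Ioc] at h3
    omega
  unfold Dr
  rw [h1, sum_union h2, add_sub_cancel_left]
  have hd0 : ∀ m : ℕ, m ≤ 2 * N → |(dk r m : ℝ)| ≤ K := by
    intro m hm
    rw [abs_of_nonneg (Nat.cast_nonneg _)]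
    rcases Nat.eq_zero_or_pos m with h0 | h0
    · rw [h0, dk_zero]; simpa using hK
    · exact hd m h0 hm
  refine (abs_sum_le_sum_abs _ _).trans ?_
  have h3 : ∀ n ∈ Ioc x x', |(dk r n : ℝ) * dk r ((n : ℤ) + h).toNat| ≤ K ^ 2 := by
    intro n hn
    rw [mem_Ioc] at hn
    rw [abs_mul, pow_two]
    have : (n : ℤ) ≤ N := by exact_mod_cast hn.2.trans hx'
    exact mul_le_mul (hd0 n (by omega)) (hd0 _ (by omega)) (abs_nonneg _) hK
  refine (sum_le_sum h3).trans (le_of_eq ?_)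
  rw [sum_const, Nat.card_Ioc, nsmul_eq_mul, Nat.cast_sub hxx]

lemma Mn_inc (W : ℕ → ℝ) (hW : ∀ a, 0 ≤ W a) (Y D z x x' : ℕ) (h : ℤ) (ρ : ℝ) (hρ : 0 ≤ ρ) (hxx : x ≤ x')
    (hw : ∀ q ∈ Icc 1 z, ∀ n : ℕ, ww W Y D q n ≤ ρ / q) :
    |Mn W Y D z x' h - Mn W Y D z x h| ≤ ((x' : ℝ) - x) * ρ ^ 2 * (1 + Real.log z) := by
  have h1 : Icc 1 x' = Icc 1 x ∪ Ioc x x' := by
    ext n
    rw [mem_union, mem_Icc, mem_Icc, mem_Ioc]
    omega
  have h2 : Disjoint (Icc 1 x) (Ioc x x') := by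
    rw [disjoint_left]
    intro n h2 h3
    rw [mem_Icc] at h2
    rw [mem_Ioc] at h3
    omega
  have hxx' : (x : ℝ) ≤ x' := by exact_mod_cast hxx
  unfold Mn
  rw [← sum_sub_distrib]
  have h3 : ∀ q ∈ Icc 1 z, |(cz q h : ℝ) * ∑ n ∈ Icc 1 x', ww W Y D q n * ww W Y D q ((n : ℤ) + h).toNat -
      (cz q h : ℝ) * ∑ n ∈ Icc 1 x, ww W Y D q n * ww W Y D q ((n : ℤ) + h).toNat| ≤ ((x' : ℝ) - x) * ρ ^ 2 * (1 / (q : ℝ)) := by
    intro q hq
    have hq' := mem_Icc.1 hq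
    have hq0 : (0 : ℝ) < q := by exact_mod_cast hq'.1
    rw [h1, sum_union h2, mul_add, add_sub_cancel_left, abs_mul]
    have h4 : |∑ n ∈ Ioc x x', ww W Y D q n * ww W Y D q ((n : ℤ) + h).toNat| ≤ ((x' : ℝ) - x) * (ρ / q * (ρ / q)) := by
      refine (abs_sum_le_sum_abs _ _).trans ?_
      have h5 : ∀ n ∈ Ioc x x', |ww W Y D q n * ww W Y D q ((n : ℤ) + h).toNat| ≤ ρ / q * (ρ / q) := by
        intro n _
        rw [abs_mul, abs_of_nonneg (ww_nonneg W hW _ _ _ _), abs_of_nonneg (ww_nonneg W hW _ _ _ _)]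
        exact mul_le_mul (hw q hq _) (hw q hq _) (ww_nonneg W hW _ _ _ _) (by positivity)
      refine (sum_le_sum h5).trans (le_of_eq ?_)
      rw [sum_const, Nat.card_Ioc, nsmul_eq_mul, Nat.cast_sub hxx]
    calc |(cz q h : ℝ)| * |∑ n ∈ Ioc x x', ww W Y D q n * ww W Y D q ((n : ℤ) + h).toNat| ≤ q * (((x' : ℝ) - x) * (ρ / q * (ρ / q))) :=
          mul_le_mul (abs_cz_le q hq'.1 h) h4 (abs_nonneg _) hq0.le
      _ = _ := by field_simp
  refine (abs_sum_le_sum_abs _ _).trans ((sum_le_sum h3).trans ?_)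
  rw [← mul_sum]
  apply mul_le_mul_of_nonneg_left _ (mul_nonneg (by linarith) (by positivity))
  have h5 := harmonic_le_one_add_log z
  rw [harmonic_eq_sum_Icc] at h5
  push_cast at h5
  simpa [one_div] using h5

end Pool.Agent.TH212.PS
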